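import Mathlib
import Pool.Agent.Q282.RotCore

/-!
MP_f75e32, Q1: horizontal and vertical rotations of inverse descent classes have the same
generating quasisymmetric function.
-/

namespace Pool.Agent.Results.MP_f75e32_co.Rotations

open MvPolynomial Q282.Rot

open Classical in
/-- The descent set `{i ∈ [n-1] : π(i) > π(i+1)}` (the element `i` of `{1, ..., n}` is
`i - 1 : Fin n`). -/
noncomputable def Des {n : ℕ} (π : Equiv.Perm (Fin n)) : Finset ℕ :=
  (Finset.Icc 1 (n - 1)).filter fun d =>
    ∃ i j : Fin n, (i : ℕ) + 1 = d ∧ (j : ℕ) = d ∧ π j < π i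

/-- The index sequences in the definition of `F_{n,D}`. -/
def Adm {n N : ℕ} (D : Finset ℕ) (i : Fin n → Fin N) : Prop :=
  Monotone i ∧ ∀ j k : Fin n, (k : ℕ) = j + 1 → (j : ℕ) + 1 ∈ D → i j < i k

open Classical in
/-- The fundamental quasisymmetric polynomial `F_{n,D}(x_1, ..., x_N)`. -/
noncomputable def F (N n : ℕ) (D : Finset ℕ) : MvPolynomial (Fin N) ℤ :=
  ∑ i : Fin n → Fin N, if Adm D i then ∏ j, X (i j) else 0

/-- `Q(A)`, the sum of `F_{n,Des(π)}` over the multiset `A`. -/
noncomputable def Q (N : ℕ) {n : ℕ} (A : Multiset (Equiv.Perm (Fin n))) :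
    MvPolynomial (Fin N) ℤ :=
  (A.map fun π => F N n (Des π)).sum

/-- The multiset of products `ab`, `a ∈ A`, `b ∈ B`. -/
def mulM {n : ℕ} (A B : Finset (Equiv.Perm (Fin n))) : Multiset (Equiv.Perm (Fin n)) :=
  (A ×ˢ B).val.map fun p => p.1 * p.2

open Classical in
/-- The inverse descent class of `J` in `S_m`, as a subset of `S_{m+1}` via the permutations that
fix the last point. -/
noncomputable def invDes (m : ℕ) (J : Finset ℕ) : Finset (Equiv.Perm (Fin (m + 1))) :=
  Finset.univ.filter fun π => π (Fin.last m) = Fin.last m ∧ Des π⁻¹ = J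

open Classical in
/-- The cyclic subgroup generated by the `n`-cycle `(1 2 ... n)`. -/
noncomputable def Cyc (n : ℕ) : Finset (Equiv.Perm (Fin n)) :=
  Finset.univ.filter fun g => g ∈ Subgroup.zpowers (finRotate n)

/-! ### `F` and sorting -/

lemma mem_des_iff {n : ℕ} (w : Equiv.Perm (Fin n)) (j k : Fin n) (hjk : (k : ℕ) = j + 1) :
    (j : ℕ) + 1 ∈ Des w ↔ w k < w j := by
  rw [Des, Finset.mem_filter, Finset.mem_Icc]
  have hk := k.isLt
  constructor
  · rintro ⟨-, i, l, h1, h2, h3⟩
    have e1 : i = j := Fin.ext (by omega)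
    have e2 : l = k := Fin.ext (by omega)
    rw [← e1, ← e2]; exact h3
  · intro h
    exact ⟨by omega, j, k, rfl, hjk, h⟩

lemma adm_iff {n N : ℕ} (w : Equiv.Perm (Fin n)) (y : Fin n → Fin N) :
    Adm (Des w) (y ∘ w) ↔ w = Tuple.sort y := by
  rw [Tuple.eq_sort_iff, Adm]
  refine and_congr_right fun hm => ?_
  constructor
  · intro h
    have key : ∀ d : ℕ, ∀ i j : Fin n, (j : ℕ) = i + d + 1 → y (w i) = y (w j) →
        w i < w j := by
      intro d
      induction d with
      | zero =>
        intro i j hij he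
        have h1 := h i j (by omega)
        rw [mem_des_iff w i j (by omega)] at h1
        by_contra hcon
        rw [not_lt] at hcon
        have hne : w j ≠ w i := fun h => by
          have := w.injective h
          rw [this] at hij
          omega
        have := h1 (lt_of_le_of_ne hcon hne)
        simp only [Function.comp_apply] at this
        exact absurd he this.ne
      | succ d ih =>
        intro i j hij he
        have hj := j.isLt
        let k : Fin n := ⟨i + d + 1, by omega⟩
        have e1 : y (w i) ≤ y (w k) := hm (show i ≤ k from by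
          show (i : ℕ) ≤ i + d + 1
          omega)
        have e2 : y (w k) ≤ y (w j) := hm (show k ≤ j from by
          show (i : ℕ) + d + 1 ≤ j
          omega)
        have e3 := ih i k rfl (le_antisymm e1 (by rw [he]; exact e2))
        have h1 := h k j (by show (j : ℕ) = i + d + 1 + 1; omega)
        rw [mem_des_iff w k j (by show (j : ℕ) = i + d + 1 + 1; omega)] at h1
        have e4 : w k < w j := by
          by_contra hcon
          rw [not_lt] at hcon
          have hne : w j ≠ w k := fun h => by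
            have := w.injective h
            rw [this] at hij
            have : (k : ℕ) = i + d + 1 := rfl
            omega
          have := h1 (lt_of_le_of_ne hcon hne)
          simp only [Function.comp_apply] at this
          exact absurd this (not_lt.mpr (by rw [← he]; exact e1))
        exact e3.trans e4
    intro i j hij he
    have hij' : (i : ℕ) < j := hij
    exact key (j - i - 1) i j (by omega) he
  · intro h j k hjk hmem
    rw [mem_des_iff w j k hjk] at hmem
    have hle : (y ∘ w) j ≤ (y ∘ w) k :=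
      hm (show j ≤ k from by show (j : ℕ) ≤ k; omega)
    rcases hle.lt_or_eq with h1 | h1
    · exact h1
    · have := h j k (show (j : ℕ) < k by omega) h1
      exact absurd hmem (not_lt.mpr this.le)

/-- the monomial of a word -/
noncomputable def wt {n N : ℕ} (y : Fin n → Fin N) : MvPolynomial (Fin N) ℤ := ∏ p, X (y p)

lemma wt_comp {n N : ℕ} (y : Fin n → Fin N) (g : Equiv.Perm (Fin n)) : wt (y ∘ g) = wt y :=
  Equiv.prod_comp g (fun p => (X (y p) : MvPolynomial (Fin N) ℤ))

open Classical in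
lemma F_des {n N : ℕ} (w : Equiv.Perm (Fin n)) :
    F N n (Des w) = ∑ y : Fin n → Fin N, if w = Tuple.sort y then wt y else 0 := by
  rw [F, ← Equiv.sum_comp (Equiv.arrowCongr w⁻¹ (Equiv.refl (Fin N)))]
  refine Finset.sum_congr rfl fun y _ => ?_
  have e : (Equiv.arrowCongr w⁻¹ (Equiv.refl (Fin N))) y = y ∘ w := by
    funext p; simp [Equiv.arrowCongr]; rfl
  rw [e, if_congr (adm_iff w y) rfl rfl]
  congr 1
  exact wt_comp y w

lemma sum_comp_perm {n N : ℕ} (g : Equiv.Perm (Fin n)) (G : (Fin n → Fin N) → MvPolynomial (Fin N) ℤ) :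
    ∑ y : Fin n → Fin N, G y = ∑ y : Fin n → Fin N, G (y ∘ g) := by
  rw [← Equiv.sum_comp (Equiv.arrowCongr g⁻¹ (Equiv.refl (Fin N)))]
  refine Finset.sum_congr rfl fun y _ => ?_
  congr 1

open Classical in
lemma sum_left {n N : ℕ} (A : Finset (Equiv.Perm (Fin n))) (g : Equiv.Perm (Fin n)) :
    ∑ π ∈ A, F N n (Des (g * π)) =
      ∑ y : Fin n → Fin N, if g⁻¹ * Tuple.sort y ∈ A then wt y else 0 := by
  simp only [F_des]
  rw [Finset.sum_comm]
  refine Finset.sum_congr rfl fun y _ => ?_
  have : ∀ π, (g * π = Tuple.sort y) ↔ π = g⁻¹ * Tuple.sort y := by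
    intro π
    rw [eq_inv_mul_iff_mul_eq]
  simp only [this]
  rw [Finset.sum_ite_eq']

open Classical in
lemma sum_right {n N : ℕ} (A : Finset (Equiv.Perm (Fin n))) (g : Equiv.Perm (Fin n)) :
    ∑ π ∈ A, F N n (Des (π * g)) =
      ∑ y : Fin n → Fin N, if Tuple.sort y * g⁻¹ ∈ A then wt y else 0 := by
  simp only [F_des]
  rw [Finset.sum_comm]
  refine Finset.sum_congr rfl fun y _ => ?_
  have : ∀ π, (π * g = Tuple.sort y) ↔ π = Tuple.sort y * g⁻¹ := by
    intro π
    rw [eq_mul_inv_iff_mul_eq]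
  simp only [this]
  rw [Finset.sum_ite_eq']

/-- positions in the sorted word -/
lemma pos_lt_iff {n N : ℕ} (y : Fin n → Fin N) (p q : Fin n) :
    (Tuple.sort y)⁻¹ p < (Tuple.sort y)⁻¹ q ↔ y p < y q ∨ (y p = y q ∧ p < q) := by
  have hst := (Tuple.eq_sort_iff (f := y) (σ := Tuple.sort y)).mp rfl
  constructor
  · intro h
    have h1 : y p ≤ y q := by
      have := hst.1 h.le
      simpa using this
    rcases h1.lt_or_eq with h2 | h2
    · exact Or.inl h2
    · refine Or.inr ⟨h2, ?_⟩
      have := hst.2 _ _ h (by simpa using h2)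
      simpa using this
  · intro h
    by_contra hcon
    rw [not_lt] at hcon
    rcases hcon.lt_or_eq with h1 | h1
    · have h2 : y q ≤ y p := by
        have := hst.1 h1.le
        simpa using this
      rcases h with h | h
      · exact absurd h (not_lt.mpr h2)
      · have := hst.2 _ _ h1 (by simpa using h.1.symm)
        simp at this
        exact absurd this (not_lt.mpr h.2.le)
    · have := (Tuple.sort y)⁻¹.injective h1
      subst this
      rcases h with h | h
      · exact lt_irrefl _ h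
      · exact lt_irrefl _ h.2

/-! ### The cyclic group -/

lemma finRotate_eq (m : ℕ) : finRotate (m + 1) = Equiv.addRight (1 : Fin (m + 1)) := by
  ext i
  rw [finRotate_apply]; rfl

lemma ofNat_succ (m k : ℕ) : Fin.ofNat (m + 1) (k + 1) = 1 + Fin.ofNat (m + 1) k := by
  apply Fin.ext
  simp [Fin.val_add, add_comm]

lemma addRight_pow (m : ℕ) (k : ℕ) :
    (Equiv.addRight (1 : Fin (m + 1)))^k = Equiv.addRight (Fin.ofNat (m + 1) k) := by
  induction k with
  | zero =>
    ext i
    have : Fin.ofNat (m + 1) 0 = 0 := rfl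
    rw [this]; simp
  | succ k ih =>
    rw [pow_succ, ih, ofNat_succ]
    ext i
    simp [add_assoc]

lemma mem_cyc (m : ℕ) (g : Equiv.Perm (Fin (m + 1))) :
    g ∈ Cyc (m + 1) ↔ ∃ a : Fin (m + 1), Equiv.addRight a = g := by
  rw [Cyc, Finset.mem_filter, finRotate_eq]
  constructor
  · rintro ⟨-, h⟩
    rw [← Subgroup.mem_toSubmonoid] at h
    have hfin : g ∈ Submonoid.powers (Equiv.addRight (1 : Fin (m + 1))) := by
      rw [mem_powers_iff_mem_zpowers]; exact h
    obtain ⟨k, rfl⟩ := hfin
    exact ⟨Fin.ofNat (m + 1) k, (addRight_pow m k).symm⟩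
  · rintro ⟨a, rfl⟩
    refine ⟨Finset.mem_univ _, ?_⟩
    refine ⟨(a : ℕ), ?_⟩
    simp only [zpow_natCast]
    rw [addRight_pow]
    congr 1
    apply Fin.ext
    simp

lemma sum_cyc {M : Type} [AddCommMonoid M] (m : ℕ) (G : Equiv.Perm (Fin (m + 1)) → M) :
    ∑ g ∈ Cyc (m + 1), G g = ∑ a : Fin (m + 1), G (Equiv.addRight a) := by
  symm
  apply Finset.sum_bij (fun a _ => Equiv.addRight a)
  · intro a _; exact (mem_cyc m _).mpr ⟨a, rfl⟩
  · intro a _ b _ h
    have := congrArg (fun e : Equiv.Perm (Fin (m + 1)) => e 0) h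
    simpa using this
  · intro g hg
    obtain ⟨a, ha⟩ := (mem_cyc m g).mp hg
    exact ⟨a, Finset.mem_univ _, ha⟩
  · intro a _; rfl

/-! ### Vertical rotations -/

/-- extension of a word to a function on the natural numbers -/
def zx {m N : ℕ} (Z : Fin (m + 1) → Fin N) (u : ℕ) : ℕ :=
  if h : u < m + 1 then (Z ⟨u, h⟩ : ℕ) else 0

lemma zx_val {m N : ℕ} (Z : Fin (m + 1) → Fin N) (u : Fin (m + 1)) : zx Z u = Z u := by
  rw [zx, dif_pos u.isLt]

open Classical in
/-- the union of the inverse descent classes of subsets of `J` -/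
noncomputable def invDesSub (m : ℕ) (J : Finset ℕ) : Finset (Equiv.Perm (Fin (m + 1))) :=
  Finset.univ.filter fun π => π (Fin.last m) = Fin.last m ∧ Des π⁻¹ ⊆ J

lemma des_subset_iff {m : ℕ} (P : Equiv.Perm (Fin (m + 1))) (J : Finset ℕ) :
    Des P ⊆ J ↔ ∀ u v : Fin (m + 1), (v : ℕ) = u + 1 → (u : ℕ) + 1 ∉ J → P u < P v := by
  constructor
  · intro h u v huv hJ
    by_contra hcon
    rw [not_lt] at hcon
    have hne : P v ≠ P u := fun h' => by
      have := P.injective h'
      rw [this] at huv
      omega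
    exact hJ (h ((mem_des_iff P u v huv).mpr (lt_of_le_of_ne hcon hne)))
  · intro h d hd
    rw [Des, Finset.mem_filter] at hd
    obtain ⟨-, i, j, h1, h2, h3⟩ := hd
    by_contra hJ
    have := h i j (by omega) (by rw [h1]; exact hJ)
    exact absurd h3 (not_lt.mpr this.le)

lemma fix_last_iff {m : ℕ} (P : Equiv.Perm (Fin (m + 1))) :
    P (Fin.last m) = Fin.last m ↔ ∀ u : Fin (m + 1), (u : ℕ) < m → P u < P (Fin.last m) := by
  constructor
  · intro h u hu
    rw [h]
    apply lt_of_le_of_ne (Fin.le_last _)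
    intro h'
    have : P u = P (Fin.last m) := by rw [h, h']
    have := P.injective this
    rw [this] at hu
    simp at hu
  · intro h
    by_contra hcon
    obtain ⟨u, hu⟩ := P.surjective (Fin.last m)
    have hne : u ≠ Fin.last m := fun h' => hcon (by rw [h'] at hu; exact hu)
    have hlt : (u : ℕ) < m := by
      have := u.isLt
      have : (u : ℕ) ≠ m := fun h'' => hne (Fin.ext h'')
      omega
    have := h u hlt
    rw [hu] at this
    exact absurd this (not_lt.mpr (Fin.le_last _))

/-- order of the shifted indices -/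
lemma sub_lt_sub_iff' {m : ℕ} (j u v : Fin (m + 1)) :
    u - j < v - j ↔ ((if (j : ℕ) ≤ u then (u : ℕ) - j else m + 1 + u - j) <
      (if (j : ℕ) ≤ v then (v : ℕ) - j else m + 1 + v - j)) := by
  have key : ∀ w : Fin (m + 1), ((w - j : Fin (m + 1)) : ℕ) =
      if (j : ℕ) ≤ w then (w : ℕ) - j else m + 1 + w - j := by
    intro w
    split_ifs with h
    · exact Fin.coe_sub_iff_le.mpr h
    · rw [Fin.coe_sub_iff_lt.mpr (show w < j from not_le.mp h)]
  rw [← key u, ← key v]
  exact Fin.lt_def

lemma vert_cond {m N : ℕ} (J : Finset ℕ) (j : Fin (m + 1))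
    (Z : Fin (m + 1) → Fin N) (g : Equiv.Perm (Fin (m + 1))) (hg : g = Equiv.addRight (-j)) :
    g⁻¹ * Tuple.sort (Z ∘ ⇑(g⁻¹)) ∈ invDesSub m J ↔
      Q282.Rot.cond m (J : Set ℕ) j (zx Z) := by
  set φ : Fin (m + 1) → Fin N := Z ∘ ⇑(g⁻¹) with hφ
  set P : Equiv.Perm (Fin (m + 1)) := (Tuple.sort φ)⁻¹ * g with hP
  have hPinv : (g⁻¹ * Tuple.sort φ)⁻¹ = P := by rw [mul_inv_rev, inv_inv]
  have hgu : ∀ u, g u = u - j := fun u => by
    rw [hg, Equiv.coe_addRight, sub_eq_add_neg]
  have hφg : ∀ u, φ (g u) = Z u := fun u => by simp [hφ]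
  have hPlt : ∀ u v, P u < P v ↔ Z u < Z v ∨ (Z u = Z v ∧ u - j < v - j) := by
    intro u v
    rw [hP, Equiv.Perm.mul_apply, Equiv.Perm.mul_apply, pos_lt_iff, hφg, hφg, hgu, hgu]
  rw [invDesSub, Finset.mem_filter, hPinv, des_subset_iff]
  have h1 : (g⁻¹ * Tuple.sort φ) (Fin.last m) = Fin.last m ↔ P (Fin.last m) = Fin.last m := by
    rw [← hPinv]
    constructor
    · intro h
      rw [Equiv.Perm.inv_eq_iff_eq]; exact h.symm
    · intro h
      rw [Equiv.Perm.inv_eq_iff_eq] at h; exact h.symm
  rw [h1, fix_last_iff]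
  have hjlt := j.isLt
  have z2 : zx Z m = Z (Fin.last m) := zx_val Z (Fin.last m)
  have e1 : (∀ u : Fin (m + 1), (u : ℕ) < m → P u < P (Fin.last m)) ↔
      ∀ u, u < m → zx Z u < zx Z m ∨ (zx Z u = zx Z m ∧ (j : ℕ) ≤ u) := by
    constructor
    · intro h u hu
      have := h ⟨u, by omega⟩ hu
      rw [hPlt, sub_lt_sub_iff'] at this
      have z1 : zx Z u = Z ⟨u, by omega⟩ := zx_val Z ⟨u, by omega⟩
      rw [z1, z2]
      rcases this with h' | ⟨h', h''⟩
      · exact Or.inl h'
      · refine Or.inr ⟨congrArg Fin.val h', ?_⟩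
        by_contra hcon
        simp only [Fin.val_last] at h''
        rw [if_neg hcon, if_pos (by omega)] at h''
        omega
    · intro h u hu
      rw [hPlt, sub_lt_sub_iff']
      have z1 := zx_val Z u
      have := h u hu
      rw [z1, z2] at this
      rcases this with h' | ⟨h', h''⟩
      · exact Or.inl h'
      · refine Or.inr ⟨Fin.ext h', ?_⟩
        simp only [Fin.val_last]
        rw [if_pos h'', if_pos (by omega)]
        omega
  rw [e1, Q282.Rot.cond]
  simp only [Finset.mem_univ, true_and]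
  refine and_congr_right fun hlast => ?_
  constructor
  · intro h u hu hJu
    have := h ⟨u, by omega⟩ ⟨u + 1, by omega⟩ rfl (fun h => hJu (by simpa using h))
    rw [hPlt, sub_lt_sub_iff'] at this
    have z1 : zx Z u = Z ⟨u, by omega⟩ := zx_val Z ⟨u, by omega⟩
    have z3 : zx Z (u + 1) = Z ⟨u + 1, by omega⟩ := zx_val Z ⟨u + 1, by omega⟩
    rw [z1, z3]
    rcases this with h' | ⟨h', h''⟩
    · exact Or.inl h'
    · refine Or.inr ⟨congrArg Fin.val h', ?_⟩
      intro hcon
      simp only at h''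
      rw [if_neg (by omega), if_pos (by omega)] at h''
      omega
  · intro h u v huv hJu
    rw [hPlt, sub_lt_sub_iff']
    have z1 := zx_val Z u
    have z3 := zx_val Z v
    have hv := v.isLt
    rcases Nat.lt_or_ge v m with hvm | hvm
    · have := h u (by omega) (by simpa using hJu)
      rw [← huv, z1, z3] at this
      rcases this with h' | ⟨h', h''⟩
      · exact Or.inl h'
      · refine Or.inr ⟨Fin.ext h', ?_⟩
        by_cases hju : (j : ℕ) ≤ u
        · rw [if_pos hju, if_pos (by omega)]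
          omega
        · rw [if_neg hju, if_neg (by omega)]
          omega
    · have hvm' : v = Fin.last m := Fin.ext (by simp; omega)
      subst hvm'
      have huv' : (u : ℕ) + 1 = m := by simpa using huv.symm
      have := hlast u (by omega)
      rw [z1, z2] at this
      rcases this with h' | ⟨h', h''⟩
      · exact Or.inl h'
      · refine Or.inr ⟨Fin.ext h', ?_⟩
        simp only [Fin.val_last]
        rw [if_pos h'', if_pos (by omega)]
        omega

/-- the shift as a permutation of the positions -/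
noncomputable def thP (m : ℕ) (J : Set ℕ) (j : Fin (m + 1)) : Equiv.Perm (Fin (m + 1)) :=
  Equiv.ofBijective (fun u => ⟨th m J j u, by
      have := th_le m J j u (by have := j.isLt; omega) (by have := u.isLt; omega)
      omega⟩)
    (Finite.injective_iff_bijective.mp fun u v h =>
      Fin.ext (th_inj m J j (by have := j.isLt; omega) u v (by have := u.isLt; omega)
        (by have := v.isLt; omega) (congrArg Fin.val h)))

lemma cond_congr (m : ℕ) (J : Set ℕ) (j : ℕ) (z z' : ℕ → ℕ) (h : ∀ u, u ≤ m → z u = z' u) :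
    Q282.Rot.cond m J j z ↔ Q282.Rot.cond m J j z' := by
  have key : ∀ z z' : ℕ → ℕ, (∀ u, u ≤ m → z u = z' u) →
      Q282.Rot.cond m J j z → Q282.Rot.cond m J j z' := by
    rintro z z' h ⟨h1, h2⟩
    refine ⟨fun u hu => ?_, fun u hu hJ => ?_⟩
    · rw [← h u hu.le, ← h m le_rfl]; exact h1 u hu
    · rw [← h u (by omega), ← h (u + 1) hu.le]; exact h2 u hu hJ
  exact ⟨key z z' h, key z' z fun u hu => (h u hu).symm⟩

lemma zx_thP {m N : ℕ} (J : Set ℕ) (j : Fin (m + 1)) (Z : Fin (m + 1) → Fin N) (u : ℕ)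
    (hu : u ≤ m) : zx (Z ∘ thP m J j) u = (zx Z ∘ th m J j) u := by
  rw [Function.comp_apply]
  have h1 := th_le m J j u (by have := j.isLt; omega) hu
  rw [zx, dif_pos (by omega), zx, dif_pos (by omega)]
  rfl

open Classical in
/-- vertical rotations -/
lemma vert {m N : ℕ} (J : Finset ℕ) :
    ∑ a : Fin (m + 1), ∑ π ∈ invDesSub m J, F N (m + 1) (Des (Equiv.addRight a * π)) =
      ∑ Z : Fin (m + 1) → Fin N, if S m (J : Set ℕ) (zx Z) then wt Z else 0 := by
  have h1 : ∀ j : Fin (m + 1), ∑ π ∈ invDesSub m J,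
      F N (m + 1) (Des (Equiv.addRight (-j) * π)) =
      ∑ Z : Fin (m + 1) → Fin N,
        if Q282.Rot.cond m (J : Set ℕ) j (zx Z ∘ th m J j) then wt Z else 0 := by
    intro j
    rw [sum_left, sum_comp_perm ((Equiv.addRight (-j) : Equiv.Perm (Fin (m + 1)))⁻¹)]
    have h2 : ∀ Z : Fin (m + 1) → Fin N,
        (if (Equiv.addRight (-j) : Equiv.Perm (Fin (m + 1)))⁻¹ *
          Tuple.sort (Z ∘ ⇑((Equiv.addRight (-j) : Equiv.Perm (Fin (m + 1)))⁻¹)) ∈ invDesSub m J then
          wt (Z ∘ ⇑((Equiv.addRight (-j) : Equiv.Perm (Fin (m + 1)))⁻¹)) else 0) =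
        if Q282.Rot.cond m (J : Set ℕ) j (zx Z) then wt Z else 0 := by
      intro Z
      rw [wt_comp]
      congr 1
      exact propext (vert_cond J j Z _ rfl)
    rw [Finset.sum_congr rfl fun Z _ => h2 Z, sum_comp_perm (thP m J j)]
    refine Finset.sum_congr rfl fun Z _ => ?_
    rw [wt_comp]
    congr 1
    exact propext (cond_congr m J j _ _ (zx_thP J j Z))
  rw [← Equiv.sum_comp (Equiv.neg (Fin (m + 1)))]
  simp only [Equiv.neg_apply]
  rw [Finset.sum_congr rfl fun j _ => h1 j, Finset.sum_comm]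
  refine Finset.sum_congr rfl fun Z _ => ?_
  obtain ⟨c1, c2⟩ := core m (J : Set ℕ) (zx Z)
  by_cases hS : S m (J : Set ℕ) (zx Z)
  · obtain ⟨j, ⟨hj, hc⟩, huniq⟩ := c1 hS
    rw [if_pos hS, Finset.sum_eq_single (⟨j, by omega⟩ : Fin (m + 1))]
    · rw [if_pos hc]
    · intro b _ hb
      rw [if_neg]
      intro hcb
      apply hb
      have := huniq b ⟨by have := b.isLt; omega, hcb⟩
      exact Fin.ext this
    · intro h; exact absurd (Finset.mem_univ _) h
  · rw [if_neg hS]
    apply Finset.sum_eq_zero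
    intro j _
    rw [if_neg (c2 hS j (by have := j.isLt; omega))]

/-! ### Horizontal rotations -/

/-- the cyclic order on the variables starting after `t` -/
def cyc {N : ℕ} (t v : Fin N) : ℕ := if t < v then (v : ℕ) else v + N

lemma cyc_inj {N : ℕ} (t : Fin N) : Function.Injective (cyc t) := by
  intro v w h
  rw [cyc, cyc] at h
  have h1 := v.isLt
  have h2 := w.isLt
  apply Fin.ext
  split_ifs at h <;> omega

/-- values of the shifted positions -/
lemma shift_val {m : ℕ} (b x : Fin (m + 1)) :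
    ((x + (Fin.last m - b) : Fin (m + 1)) : ℕ) = if b < x then (x : ℕ) - b - 1 else x + m - b := by
  have hb := b.isLt
  have hx := x.isLt
  have h1 : ((Fin.last m - b : Fin (m + 1)) : ℕ) = m - b := by
    rw [Fin.coe_sub_iff_le.mpr (Fin.le_last b)]; simp
  rw [Fin.val_add, h1]
  split_ifs with h
  · have h' : (b : ℕ) < x := h
    have : (x : ℕ) + (m - b) = (x - b - 1) + (m + 1) := by omega
    rw [this, Nat.add_mod_right, Nat.mod_eq_of_lt (by omega)]
  · have h' : ¬ (b : ℕ) < x := h
    rw [Nat.mod_eq_of_lt (by omega)]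
    omega

lemma horiz_cond {m N : ℕ} (J : Finset ℕ) (φ : Fin (m + 1) → Fin N) (a : Fin (m + 1)) :
    Tuple.sort φ * (Equiv.addRight a)⁻¹ ∈ invDesSub m J ↔
      (a = Fin.last m - (Tuple.sort φ)⁻¹ (Fin.last m) ∧
        S m (J : Set ℕ) (fun u => if h : u < m + 1 then cyc (φ (Fin.last m)) (φ ⟨u, h⟩) else 0)) := by
  rw [invDesSub, Finset.mem_filter]
  simp only [Finset.mem_univ, true_and]
  set P : Equiv.Perm (Fin (m + 1)) := (Tuple.sort φ)⁻¹ with hP
  have hinv : (Tuple.sort φ * (Equiv.addRight a)⁻¹)⁻¹ = Equiv.addRight a * P := by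
    rw [mul_inv_rev, inv_inv]
  rw [hinv]
  have h1 : (Tuple.sort φ * (Equiv.addRight a)⁻¹) (Fin.last m) = Fin.last m ↔
      a = Fin.last m - P (Fin.last m) := by
    have h2 : (Tuple.sort φ * (Equiv.addRight a)⁻¹) (Fin.last m) = Fin.last m ↔
        (Equiv.addRight a * P) (Fin.last m) = Fin.last m := by
      rw [← hinv]
      constructor
      · intro h
        rw [Equiv.Perm.inv_eq_iff_eq]; exact h.symm
      · intro h
        rw [Equiv.Perm.inv_eq_iff_eq] at h; exact h.symm
    rw [h2, Equiv.Perm.mul_apply, Equiv.coe_addRight]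
    show P (Fin.last m) + a = Fin.last m ↔ a = Fin.last m - P (Fin.last m)
    rw [eq_sub_iff_add_eq, add_comm a]
  rw [h1]
  refine and_congr_right fun ha => ?_
  rw [des_subset_iff]
  have hPlt : ∀ u v, P u < P v ↔ φ u < φ v ∨ (φ u = φ v ∧ u < v) := fun u v => pos_lt_iff φ u v
  have hval : ∀ u, (((Equiv.addRight a * P) u : Fin (m + 1)) : ℕ) =
      if P (Fin.last m) < P u then (P u : ℕ) - P (Fin.last m) - 1 else P u + m - P (Fin.last m) := by
    intro u
    rw [Equiv.Perm.mul_apply, Equiv.coe_addRight, ha, shift_val]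
  have hgt : ∀ u, P (Fin.last m) < P u ↔ φ (Fin.last m) < φ u := by
    intro u
    rw [hPlt]
    constructor
    · rintro (h | ⟨-, h⟩)
      · exact h
      · exact absurd h (not_lt.mpr (Fin.le_last u))
    · exact Or.inl
  have hsucc : ∀ u v : Fin (m + 1), (v : ℕ) = u + 1 → (P u < P v ↔ φ u ≤ φ v) := by
    intro u v huv
    rw [hPlt]
    have : u < v := show (u : ℕ) < v by omega
    constructor
    · rintro (h | h)
      · exact h.le
      · exact h.1.le
    · intro h
      rcases h.lt_or_eq with h | h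
      · exact Or.inl h
      · exact Or.inr ⟨h, this⟩
  -- the comparison for neighbours
  have hcmp : ∀ u v : Fin (m + 1), (v : ℕ) = u + 1 →
      ((Equiv.addRight a * P) u < (Equiv.addRight a * P) v ↔
        cyc (φ (Fin.last m)) (φ u) ≤ cyc (φ (Fin.last m)) (φ v)) := by
    intro u v huv
    have e1 : ((Equiv.addRight a * P) u < (Equiv.addRight a * P) v) ↔
      (((Equiv.addRight a * P) u : Fin (m + 1)) : ℕ) < ((Equiv.addRight a * P) v : Fin (m + 1)) :=
      Iff.rfl
    rw [e1, hval u, hval v, cyc, cyc]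
    have s1 := hsucc u v huv
    have g1 := hgt u
    have g2 := hgt v
    have b0 := (P (Fin.last m)).isLt
    have b1 := (P u).isLt
    have b2 := (P v).isLt
    have f1 := (φ u).isLt
    have f2 := (φ v).isLt
    have s1' : ((P u : ℕ) < P v) ↔ ((φ u : ℕ) ≤ φ v) := s1
    by_cases c1 : φ (Fin.last m) < φ u
    · have c1' := g1.mpr c1
      by_cases c2 : φ (Fin.last m) < φ v
      · have c2' := g2.mpr c2
        rw [if_pos c1', if_pos c2', if_pos c1, if_pos c2, ← s1']
        have c1'' : (P (Fin.last m) : ℕ) < P u := c1'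
        have c2'' : (P (Fin.last m) : ℕ) < P v := c2'
        omega
      · have c2' := fun h => c2 (g2.mp h)
        rw [if_pos c1', if_neg c2', if_pos c1, if_neg c2]
        have c2'' : ¬ (P (Fin.last m) : ℕ) < P v := c2'
        have c1'' : (P (Fin.last m) : ℕ) < P u := c1'
        constructor
        · intro _; omega
        · intro _; omega
    · have c1' := fun h => c1 (g1.mp h)
      by_cases c2 : φ (Fin.last m) < φ v
      · have c2' := g2.mpr c2
        rw [if_neg c1', if_pos c2', if_neg c1, if_pos c2]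
        have c1'' : ¬ (P (Fin.last m) : ℕ) < P u := c1'
        have c2'' : (P (Fin.last m) : ℕ) < P v := c2'
        constructor
        · intro h; omega
        · intro h; omega
      · have c2' := fun h => c2 (g2.mp h)
        rw [if_neg c1', if_neg c2', if_neg c1, if_neg c2]
        have c1'' : ¬ (P (Fin.last m) : ℕ) < P u := c1'
        have c2'' : ¬ (P (Fin.last m) : ℕ) < P v := c2'
        have s2 : ((φ u : ℕ) + N ≤ φ v + N) ↔ ((φ u : ℕ) ≤ φ v) := by omega
        rw [s2, ← s1']
        omega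
  constructor
  · intro h u hu hJu
    have := h ⟨u, by omega⟩ ⟨u + 1, by omega⟩ rfl (fun h => hJu (by simpa using h))
    rw [hcmp _ _ rfl] at this
    beta_reduce
    rw [dif_pos (by omega), dif_pos (by omega)]
    exact this
  · intro h u v huv hJu
    rw [hcmp u v huv]
    have hv := v.isLt
    rcases Nat.lt_or_ge v m with hvm | hvm
    · have := h u (by omega) (by simpa using hJu)
      beta_reduce at this
      rw [dif_pos (by omega), dif_pos (by omega)] at this
      have e : (⟨(u : ℕ) + 1, by omega⟩ : Fin (m + 1)) = v := Fin.ext huv.symm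
      rw [e] at this
      exact this
    · have hvm' : v = Fin.last m := Fin.ext (by simp; omega)
      subst hvm'
      have hN := (φ u).isLt
      have e2 : cyc (φ (Fin.last m)) (φ (Fin.last m)) = φ (Fin.last m) + N := by
        rw [cyc, if_neg (lt_irrefl _)]
      rw [e2, cyc]
      split_ifs with c
      · omega
      · have : (φ u : ℕ) ≤ φ (Fin.last m) := not_lt.mp c
        omega

/-- the sortedness condition for the word `f ∘ φ` -/
def Sf {m N : ℕ} (J : Finset ℕ) (f : Fin N → ℕ) (φ : Fin (m + 1) → Fin N) : Prop :=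
  S m (J : Set ℕ) (fun u => if h : u < m + 1 then f (φ ⟨u, h⟩) else 0)

open Classical in
lemma horiz {m N : ℕ} (J : Finset ℕ) :
    ∑ a : Fin (m + 1), ∑ π ∈ invDesSub m J, F N (m + 1) (Des (π * Equiv.addRight a)) =
      ∑ φ : Fin (m + 1) → Fin N, if Sf J (cyc (φ (Fin.last m))) φ then wt φ else 0 := by
  rw [Finset.sum_congr rfl fun a _ => sum_right (N := N) (invDesSub m J) (Equiv.addRight a),
    Finset.sum_comm]
  refine Finset.sum_congr rfl fun φ _ => ?_
  rw [Finset.sum_congr rfl fun a _ => if_congr (horiz_cond J φ a) rfl rfl]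
  rw [Finset.sum_eq_single (Fin.last m - (Tuple.sort φ)⁻¹ (Fin.last m))]
  · rw [Sf]
    simp
  · intro b _ hb
    rw [if_neg (fun h => hb h.1)]
  · intro h; exact absurd (Finset.mem_univ _) h

/-! ### Sorting on classes -/

def SortedOn {n : ℕ} (c : Fin n → ℕ) (y : Fin n → ℕ) : Prop :=
  ∀ p q, p < q → c p = c q → y p ≤ y q

lemma exists_sorting {n : ℕ} (c : Fin n → ℕ) (y : Fin n → ℕ) :
    ∃ g : Equiv.Perm (Fin n), c ∘ g = c ∧ SortedOn c (y ∘ g) := by
  let f : Fin n → ℕ ×ₗ ℕ := fun p => toLex (c p, y p)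
  let τ := Tuple.sort f
  let σ := Tuple.sort c
  have hτ : Monotone (f ∘ τ) := Tuple.monotone_sort f
  have hσ : Monotone (c ∘ σ) := Tuple.monotone_sort c
  have hcτ : Monotone (c ∘ τ) := by
    intro i j hij
    have := hτ hij
    rw [Function.comp_apply, Function.comp_apply, Prod.Lex.toLex_le_toLex] at this
    rcases this with h | h
    · exact h.le
    · exact h.1.le
  have hστ : c ∘ τ = c ∘ σ := Tuple.unique_monotone hcτ hσ
  have hst := (Tuple.eq_sort_iff (f := c) (σ := σ)).mp rfl
  refine ⟨σ⁻¹.trans τ, ?_, ?_⟩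
  · funext p
    have := congrFun hστ (σ⁻¹ p)
    simp only [Function.comp_apply, Equiv.trans_apply] at this ⊢
    rw [this]; simp
  · intro p q hpq hc
    have h1 : σ⁻¹ p < σ⁻¹ q := by
      by_contra hcon
      rw [not_lt] at hcon
      rcases hcon.lt_or_eq with h | h
      · have := hst.2 _ _ h (by simp [hc])
        simp at this
        exact absurd this (not_lt.mpr hpq.le)
      · have := σ⁻¹.injective h
        exact absurd this.symm hpq.ne
    have h2 := hτ h1.le
    rw [Function.comp_apply, Function.comp_apply, Prod.Lex.toLex_le_toLex] at h2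
    have h3 : ∀ r, c (τ (σ⁻¹ r)) = c r := by
      intro r
      have := congrFun hστ (σ⁻¹ r)
      simp only [Function.comp_apply] at this
      rw [this]; simp
    simp only [h3] at h2
    rcases h2 with h | h
    · exact absurd hc h.ne
    · exact h.2

lemma sorted_unique {n : ℕ} (c : Fin n → ℕ) (y1 y2 : Fin n → ℕ) (h1 : SortedOn c y1)
    (h2 : SortedOn c y2) (g : Equiv.Perm (Fin n)) (hg : c ∘ g = c) (hy : y2 = y1 ∘ g) :
    y1 = y2 := by
  let σ := Tuple.sort c
  have hst := (Tuple.eq_sort_iff (f := c) (σ := σ)).mp rfl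
  have key : ∀ y : Fin n → ℕ, SortedOn c y →
      Monotone ((fun p => toLex (c p, y p) : Fin n → ℕ ×ₗ ℕ) ∘ σ) := by
    intro y hy i j hij
    rw [Function.comp_apply, Function.comp_apply, Prod.Lex.toLex_le_toLex]
    rcases (hst.1 hij).lt_or_eq with h | h
    · exact Or.inl h
    · refine Or.inr ⟨h, ?_⟩
      rcases hij.lt_or_eq with h' | h'
      · exact hy _ _ (hst.2 i j h' h) h
      · rw [h']
  have k1 := key y1 h1
  have k2 := key y2 h2
  have e : ((fun p => toLex (c p, y2 p) : Fin n → ℕ ×ₗ ℕ) ∘ σ) =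
      ((fun p => toLex (c p, y1 p) : Fin n → ℕ ×ₗ ℕ) ∘ (σ.trans g)) := by
    funext p
    simp only [Function.comp_apply, Equiv.trans_apply, hy]
    have := congrFun hg (σ p)
    rw [Function.comp_apply] at this
    rw [this]
  rw [e] at k2
  have k3 := Tuple.unique_monotone k1 k2
  rw [← e] at k3
  funext p
  have := congrFun k3 (σ⁻¹ p)
  simp at this
  exact this

open Classical in
/-- the number of sorted words does not depend on the order of the alphabet -/
lemma key_identity {n N : ℕ} (c : Fin n → ℕ) (fm : (Fin n → Fin N) → Fin N → ℕ)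
    (hinj : ∀ y, Function.Injective (fm y))
    (hfm : ∀ y (g : Equiv.Perm (Fin n)), c ∘ g = c → fm (y ∘ g) = fm y) :
    ∑ g : Equiv.Perm (Fin n), (if c ∘ g = c then
      ∑ y : Fin n → Fin N, (if SortedOn c (fm y ∘ y) then wt y else 0) else 0) =
    ∑ g : Equiv.Perm (Fin n), (if c ∘ g = c then
      ∑ y : Fin n → Fin N, (if y ∘ g = y then wt y else 0) else 0) := by
  have h2 : ∑ g : Equiv.Perm (Fin n), (if c ∘ g = c then
      ∑ y : Fin n → Fin N, (if SortedOn c (fm y ∘ y) then wt y else 0) else 0) =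
      ∑ y : Fin n → Fin N, ∑ g : Equiv.Perm (Fin n),
        (if c ∘ g = c ∧ SortedOn c (fm y ∘ y ∘ g) then wt y else 0) := by
    rw [Finset.sum_comm]
    refine Finset.sum_congr rfl fun g _ => ?_
    by_cases h : c ∘ g = c
    · rw [if_pos h, sum_comp_perm g]
      refine Finset.sum_congr rfl fun y _ => ?_
      rw [wt_comp, hfm y g h]
      simp [h]
    · simp [h]
  have h3 : ∑ g : Equiv.Perm (Fin n), (if c ∘ g = c then
      ∑ y : Fin n → Fin N, (if y ∘ g = y then wt y else 0) else 0) =
      ∑ y : Fin n → Fin N, ∑ g : Equiv.Perm (Fin n),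
        (if c ∘ g = c ∧ y ∘ g = y then wt y else 0) := by
    rw [Finset.sum_comm]
    refine Finset.sum_congr rfl fun g _ => ?_
    by_cases h : c ∘ g = c
    · simp [h]
    · simp [h]
  rw [h2, h3]
  refine Finset.sum_congr rfl fun y _ => ?_
  obtain ⟨g0, hg0, hs0⟩ := exists_sorting c (fm y ∘ y)
  rw [← Equiv.sum_comp (Equiv.mulRight g0)]
  refine Finset.sum_congr rfl fun g _ => ?_
  congr 1
  apply propext
  simp only [Equiv.coe_mulRight]
  have hcoe : ∀ {γ : Type} (z : Fin n → γ), z ∘ ⇑(g * g0) = (z ∘ g) ∘ g0 := fun z => rfl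
  rw [hcoe, hcoe]
  have hg0' : ∀ z : Fin n → ℕ, z ∘ g0 = c → z = c := by
    intro z hz
    funext p
    have e1 := congrFun hz (g0⁻¹ p)
    have e2 := congrFun hg0 (g0⁻¹ p)
    simp at e1 e2
    rw [e1, ← e2]
  constructor
  · rintro ⟨e1, e2⟩
    have e3 : c ∘ g = c := hg0' _ e1
    refine ⟨e3, ?_⟩
    have e4 : fm y ∘ y ∘ g0 = fm y ∘ (y ∘ g) ∘ g0 := by
      apply sorted_unique c _ _ hs0 e2 (g0⁻¹ * g * g0)
      · funext p
        have e5 := congrFun e3 (g0 p)
        have e6 := congrFun hg0 (g0⁻¹ (g (g0 p)))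
        have e7 := congrFun hg0 p
        have e8 : g0 (g0⁻¹ (g (g0 p))) = g (g0 p) := by simp
        simp only [Function.comp_apply, Equiv.Perm.coe_mul, e8] at e5 e6 e7 ⊢
        rw [← e6, e5, e7]
      · funext p
        simp [Equiv.Perm.coe_mul]
    funext p
    have := congrFun e4 (g0⁻¹ p)
    simp only [Function.comp_apply] at this
    have := hinj y this
    simp at this
    exact this.symm
  · rintro ⟨e1, e2⟩
    rw [e1, e2]
    exact ⟨hg0, hs0⟩

/-- the class of a position: the end of its block, and `m` for the last position -/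
noncomputable def cls (m : ℕ) (J : Finset ℕ) (u : Fin (m + 1)) : ℕ :=
  if (u : ℕ) < m then eo m (J : Set ℕ) u else m

lemma sf_iff {m N : ℕ} (J : Finset ℕ) (f : Fin N → ℕ) (φ : Fin (m + 1) → Fin N) :
    Sf J f φ ↔ SortedOn (cls m J) (f ∘ φ) := by
  constructor
  · intro h p q hpq hc
    have hpq' : (p : ℕ) < q := hpq
    have hq := q.isLt
    have hp : (p : ℕ) < m := by omega
    rw [cls, cls, if_pos hp] at hc
    obtain ⟨h1, h2, h3, h4⟩ := eo_spec m (J : Set ℕ) p hp
    by_cases hqm : (q : ℕ) < m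
    · rw [if_pos hqm] at hc
      obtain ⟨g1, g2, g3, g4⟩ := eo_spec m (J : Set ℕ) q hqm
      have := S_mono m (J : Set ℕ) _ h p (q - p) (by omega)
        (fun r hr1 hr2 => h3 r hr1 (by omega))
      beta_reduce at this
      rw [dif_pos (by omega), dif_pos (by omega)] at this
      have e : (⟨(p : ℕ) + (q - p), by omega⟩ : Fin (m + 1)) = q := Fin.ext (by simp; omega)
      rw [e] at this
      exact this
    · rw [if_neg hqm] at hc
      omega
  · intro h u hu hJ
    have hc : cls m J ⟨u, by omega⟩ = cls m J ⟨u + 1, by omega⟩ := by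
      rw [cls, cls, if_pos (by simp only; omega), if_pos (by simp only; omega)]
      exact eo_succ m (J : Set ℕ) u hu hJ
    have := h ⟨u, by omega⟩ ⟨u + 1, by omega⟩ (by simp [Fin.lt_def]) hc
    beta_reduce
    rw [dif_pos (by omega), dif_pos (by omega)]
    exact this

lemma cls_last {m : ℕ} (J : Finset ℕ) (g : Equiv.Perm (Fin (m + 1)))
    (hg : cls m J ∘ g = cls m J) : g (Fin.last m) = Fin.last m := by
  have h := congrFun hg (Fin.last m)
  rw [Function.comp_apply] at h
  have h1 : cls m J (Fin.last m) = m := by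
    rw [cls, if_neg (by simp)]
  rw [h1] at h
  by_contra hne
  have hlt : ((g (Fin.last m) : Fin (m + 1)) : ℕ) < m := by
    have := (g (Fin.last m)).isLt
    have : ((g (Fin.last m) : Fin (m + 1)) : ℕ) ≠ m := fun h' => hne (Fin.ext (by simpa using h'))
    omega
  rw [cls, if_pos hlt] at h
  have := (eo_spec m (J : Set ℕ) _ hlt).2.1
  omega

open Classical in
/-- the alphabet may be reordered -/
lemma reorder {m N : ℕ} (J : Finset ℕ) :
    ∑ φ : Fin (m + 1) → Fin N, (if Sf J (cyc (φ (Fin.last m))) φ then wt φ else 0) =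
      ∑ φ : Fin (m + 1) → Fin N, (if S m (J : Set ℕ) (zx φ) then wt φ else 0) := by
  have h1 := key_identity (N := N) (cls m J) (fun φ => cyc (φ (Fin.last m)))
    (fun φ => cyc_inj _) (fun φ g hg => by
      simp only [Function.comp_apply, cls_last J g hg])
  have h2 := key_identity (N := N) (cls m J) (fun _ => Fin.val)
    (fun _ => Fin.val_injective) (fun _ _ _ => rfl)
  rw [← h2] at h1
  have hs : ∀ A : MvPolynomial (Fin N) ℤ, ∑ g : Equiv.Perm (Fin (m + 1)),
      (if cls m J ∘ g = cls m J then A else 0) =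
      (Finset.univ.filter fun g : Equiv.Perm (Fin (m + 1)) => cls m J ∘ g = cls m J).card • A := by
    intro A
    rw [← Finset.sum_filter, Finset.sum_const]
  rw [hs, hs] at h1
  have hcard : (Finset.univ.filter fun g : Equiv.Perm (Fin (m + 1)) =>
      cls m J ∘ g = cls m J).card ≠ 0 := by
    rw [Finset.card_ne_zero]
    exact ⟨1, by simp⟩
  have h3 := smul_right_injective (MvPolynomial (Fin N) ℤ) hcard h1
  simp only [← sf_iff] at h3
  rw [h3]
  refine Finset.sum_congr rfl fun φ _ => ?_
  congr 1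

/-! ### Conclusion -/

lemma Q_left {m N : ℕ} (A : Finset (Equiv.Perm (Fin (m + 1)))) :
    Q N (mulM (Cyc (m + 1)) A) =
      ∑ a : Fin (m + 1), ∑ π ∈ A, F N (m + 1) (Des (Equiv.addRight a * π)) := by
  rw [← sum_cyc m fun g => ∑ π ∈ A, F N (m + 1) (Des (g * π)), Q, mulM, Multiset.map_map,
    ← Finset.sum_product']
  rfl

lemma Q_right {m N : ℕ} (A : Finset (Equiv.Perm (Fin (m + 1)))) :
    Q N (mulM A (Cyc (m + 1))) =
      ∑ a : Fin (m + 1), ∑ π ∈ A, F N (m + 1) (Des (π * Equiv.addRight a)) := by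
  rw [← sum_cyc m fun g => ∑ π ∈ A, F N (m + 1) (Des (π * g)), Q, mulM, Multiset.map_map,
    Finset.sum_comm, ← Finset.sum_product']
  rfl

open Classical in
lemma sum_sub {m : ℕ} {M : Type} [AddCommMonoid M] (J : Finset ℕ)
    (G : Equiv.Perm (Fin (m + 1)) → M) :
    ∑ π ∈ invDesSub m J, G π = ∑ K ∈ J.powerset, ∑ π ∈ invDes m K, G π := by
  simp only [invDesSub, invDes, Finset.sum_filter]
  rw [Finset.sum_comm]
  refine Finset.sum_congr rfl fun π _ => ?_
  by_cases h1 : π (Fin.last m) = Fin.last m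
  · simp only [h1, true_and]
    by_cases h2 : Des π⁻¹ ⊆ J
    · rw [if_pos h2, Finset.sum_eq_single (Des π⁻¹)]
      · rw [if_pos rfl]
      · intro K _ hK
        rw [if_neg (fun h => hK h.symm)]
      · intro h
        exact absurd (Finset.mem_powerset.mpr h2) h
    · rw [if_neg h2]
      symm
      apply Finset.sum_eq_zero
      intro K hK
      rw [if_neg]
      intro h
      apply h2
      rw [h]
      exact Finset.mem_powerset.mp hK
  · simp [h1]

/-- **MP_f75e32, Q1.**  Let `n = m + 1 ≥ 2` and `J ⊆ [n-2]`.  Then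
`Q(C_n D_{n-1,J}^{-1}) = Q(D_{n-1,J}^{-1} C_n)`, in any number `N` of variables. -/
theorem result (m : ℕ) (_ : 1 ≤ m) (J : Finset ℕ) (_ : J ⊆ Finset.Icc 1 (m - 1)) (N : ℕ) :
    Q N (mulM (Cyc (m + 1)) (invDes m J)) = Q N (mulM (invDes m J) (Cyc (m + 1))) := by
  rw [Q_left, Q_right]
  -- prove it for all `J`, by induction on subsets
  clear * -
  induction J using Finset.strongInduction with
  | _ J ih =>
    have hv := vert (N := N) (m := m) J
    have hh := horiz (N := N) (m := m) J
    rw [reorder, ← hv] at hh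
    have e1 : ∑ a : Fin (m + 1), ∑ π ∈ invDesSub m J, F N (m + 1) (Des (π * Equiv.addRight a)) =
        ∑ K ∈ J.powerset, ∑ a : Fin (m + 1), ∑ π ∈ invDes m K,
          F N (m + 1) (Des (π * Equiv.addRight a)) := by
      rw [Finset.sum_congr rfl fun a _ => sum_sub (m := m) J
        (fun π => F N (m + 1) (Des (π * Equiv.addRight a)))]
      exact Finset.sum_comm
    have e2 : ∑ a : Fin (m + 1), ∑ π ∈ invDesSub m J, F N (m + 1) (Des (Equiv.addRight a * π)) =
        ∑ K ∈ J.powerset, ∑ a : Fin (m + 1), ∑ π ∈ invDes m K,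
          F N (m + 1) (Des (Equiv.addRight a * π)) := by
      rw [Finset.sum_congr rfl fun a _ => sum_sub (m := m) J
        (fun π => F N (m + 1) (Des (Equiv.addRight a * π)))]
      exact Finset.sum_comm
    rw [e1, e2] at hh
    rw [← Finset.add_sum_erase _ _ (Finset.mem_powerset_self J),
      ← Finset.add_sum_erase _ _ (Finset.mem_powerset_self J)] at hh
    have e3 : ∑ K ∈ J.powerset.erase J, ∑ a : Fin (m + 1), ∑ π ∈ invDes m K,
          F N (m + 1) (Des (π * Equiv.addRight a)) =
        ∑ K ∈ J.powerset.erase J, ∑ a : Fin (m + 1), ∑ π ∈ invDes m K,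
          F N (m + 1) (Des (Equiv.addRight a * π)) := by
      refine Finset.sum_congr rfl fun K hK => ?_
      rw [Finset.mem_erase, Finset.mem_powerset] at hK
      exact (ih K (Finset.ssubset_iff_subset_ne.mpr ⟨hK.2, hK.1⟩)).symm
    rw [e3] at hh
    exact (add_right_cancel hh).symm

end Pool.Agent.Results.MP_f75e32_co.Rotations
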